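import Pool.Agent.H937.OG.EffMain
import Pool.Graph.R_seed8.Results.MP_e6aa12_ag.AllCharacteristicsWindow
import Pool.Graph.R_seed8.Results.MP_e6aa12_ag.EveryNumberOfPoints
import Pool.Graph.R_pool_sql_team_seeded_35f281b4.Results.MP_e6aa12_ag.EveryNumberTogether
import Pool.Graph.R_pool_sql_team_seeded_35f281b4.Results.MP_e6aa12_ag.ThirteenEveryDegree
import Pool.Graph.R_seed8.Y76.NQ.Expl

/-!
# Collisions of fat points: one germ of a curve for all numbers and multiplicities, effective bounds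
for the characteristic, and explicit collisions with integral coefficients

Let `Y` be the subscheme of the plane with the ideal `(y - q(x), (x - c) ^ r) ^ m`, `deg q < r`, a
collision of `r ≥ 10` points of multiplicity `m` along the curve `y = q(x)`. The question is whether for
general `(c, q)` the space of the forms of degree `d` through `Y` has the expected dimension
`max (0, (d + 2).choose 2 - r (m + 1).choose 2)`, for all `r`, `m`, `d`, over fields of all characteristics.
The library answers it in characteristic zero for all degrees but at most one for given `r`, `m`, and in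
all degrees for many pairs `(r, m)`; in characteristic `p`, for `r ≥ 17`, it leaves about `√r - 3` degrees
open; the conditions on `(c, q)` (hypersurfaces) are not explicit.

Here we show that all these answers hold

* in all characteristics `p > height r m = n! 2 ^ (r D n)`, where `n = r (m + 1).choose 2` is the number of
  the conditions and `D = (m + 1) (⌊√r⌋ + 1) + 1`, for all `(c, q)` outside a hypersurface of degree at
  most `degreeBound r m = (D + 1) n r D`;
* over all these fields, for the collisions at the point `x = 0` along ONE curve (germ)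
  `y = a₀ + a₁ x + a₂ x ^ 2 + ...`, for all `r` and `m` at the same time, whenever the `a_j` are
  algebraically independent over the prime field (`Generic`); for example for
  `a_j = exp (2 ^ (1 / 2 ^ (j + 1)))` over the complex numbers;
* in characteristic zero for the explicit collisions `(y - ∑ T ^ (E ^ j) x ^ j, x ^ r) ^ m` with integral
  coefficients, for all integers `T > height r m` and `E > degreeBound r m`.

The proof compares the ranks of the matrices of the linear conditions for the forms, whose entries are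
polynomials in `c` and the `a_j` with integral coefficients (`Pool.Agent.H937.OG`); the degrees up to `D`
are enough, since conditions which are independent in one degree are independent in the higher ones.
The sums of the absolute values of the coefficients of the entries are at most `2 ^ (r d)`, their
degrees at most `r d` in degree `d`.
-/

set_option autoImplicit false

namespace Pool.Agent.Results.MP_e6aa12_ag.OneGermLargeCharacteristic

open Polynomial

universe u

/-- The forms of degree `d` in three variables whose dehomogenisation lies in the ideal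
`(y - ∑ a_j x ^ j, (x - c) ^ r) ^ m` of `k[x][y]`: the space `H⁰(I_Y(d))`. -/
noncomputable def forms {k : Type u} [Field k] {r : ℕ} (m : ℕ) (c : k) (a : Fin r → k) (d : ℕ) :
    Submodule k (MvPolynomial (Fin 3) k) :=
  MvPolynomial.homogeneousSubmodule (Fin 3) k d ⊓
    (Submodule.restrictScalars k
      ((Ideal.span {X - C (∑ j : Fin r, C (a j) * X ^ (j : ℕ)), C ((X - C c) ^ r)} :
        Ideal k[X][X]) ^ m)).comap
      (MvPolynomial.aeval ![C X, X, 1] :
        MvPolynomial (Fin 3) k →ₐ[k] k[X][X]).toLinearMap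

/-- the expected dimension of the space of forms (the subtraction is the one of the natural numbers) -/
def expected (r m d : ℕ) : ℕ := Nat.choose (d + 2) 2 - r * Nat.choose (m + 1) 2

/-- The `a_j` are algebraically independent over the prime field of `k`: no polynomial with integral
coefficients, not all of them zero in `k`, vanishes at `a`. -/
def Generic {k : Type u} [Field k] (a : ℕ → k) : Prop :=
  ∀ D : MvPolynomial ℕ ℤ, MvPolynomial.map (Int.castRingHom k) D ≠ 0 →
    MvPolynomial.aeval a D ≠ 0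

/-- the number of the conditions -/
def conds (r m : ℕ) : ℕ := r * Nat.choose (m + 1) 2

/-- the degrees up to this one are enough -/
def top (r m : ℕ) : ℕ := (m + 1) * (Nat.sqrt r + 1) + 1

/-- the bound for the characteristic -/
def height (r m : ℕ) : ℕ := (conds r m).factorial * 2 ^ (r * top r m * conds r m)

/-- the bound for the degree of the hypersurface of the exceptional collisions -/
def degreeBound (r m : ℕ) : ℕ := (top r m + 1) * (conds r m * (r * top r m))

/-- `Holds P r m S`: over all fields `k` the characteristic of which satisfies `P`, the space of forms has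
the expected dimension in all degrees `d ∈ S`

* for all `(c, a₀, ..., a_(r-1))` outside a hypersurface of degree at most `degreeBound r m`,
* for `c = 0` and `(a₀, ..., a_(r-1))` for EVERY generic sequence `a₀, a₁, a₂, ...`, that is, for the
  collision at the point `x = 0` along the germ `y = ∑ a_j x ^ j`, and
* in characteristic zero for `c = 0` and `a_j = T ^ (E ^ j)` for all natural numbers `T > height r m` and
  `E > degreeBound r m`. -/
def Holds (P : ℕ → Prop) (r m : ℕ) (S : Set ℕ) : Prop :=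
  ∀ (k : Type u) [Field k] (p : ℕ) [CharP k p], P p →
    (∃ F : MvPolynomial (Fin (r + 1)) k, F ≠ 0 ∧ F.totalDegree ≤ degreeBound r m ∧
      ∀ (c : k) (a : Fin r → k), MvPolynomial.eval (Fin.cons c a : Fin (r + 1) → k) F ≠ 0 →
        ∀ d ∈ S, Module.finrank k (forms m c a d) = expected r m d) ∧
    (∀ a : ℕ → k, Generic a → ∀ d ∈ S,
      Module.finrank k (forms m 0 (fun j : Fin r => a j) d) = expected r m d) ∧
    (p = 0 → ∀ T E : ℕ, height r m < T → degreeBound r m < E → ∀ d ∈ S,
      Module.finrank k (forms m (0 : k) (fun j : Fin r => (T : k) ^ E ^ (j : ℕ)) d) =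
        expected r m d)

/-- the characteristic is zero or larger than `height r m` -/
def Large (r m p : ℕ) : Prop := p = 0 ∨ height r m < p

/-- the expected dimension in every degree, in characteristic zero and all large characteristics -/
def Settled (r m : ℕ) : Prop := Holds.{u} (Large r m) r m Set.univ

/-- the algebraically independent numbers `exp (2 ^ (1 / 2 ^ (j + 1)))` -/
noncomputable def germ (j : ℕ) : ℂ := ((Real.exp ((2 : ℝ) ^ ((1 : ℝ) / 2 ^ (j + 1))) : ℝ) : ℂ)

theorem exp_cons {k : Type u} [Field k] {r m : ℕ} {c : k} {a : Fin r → k} {S : Set ℕ} :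
    Pool.Agent.H937.OG.Exp r m (Fin.cons c a : Fin (r + 1) → k) S ↔
      ∀ d ∈ S, Module.finrank k (forms m c a d) = expected r m d := Iff.rfl

theorem exp_of_cons {k : Type u} [Field k] {r m : ℕ} {S : Set ℕ}
    {F : MvPolynomial (Fin (r + 1)) k}
    (hF : ∀ (c : k) (a : Fin r → k), MvPolynomial.eval (Fin.cons c a : Fin (r + 1) → k) F ≠ 0 →
      ∀ d ∈ S, Module.finrank k (forms m c a d) = expected r m d)
    (x : Fin (r + 1) → k) (hx : MvPolynomial.eval x F ≠ 0) : Pool.Agent.H937.OG.Exp r m x S := by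
  have h1 : (Fin.cons (x 0) (fun j : Fin r => x j.succ) : Fin (r + 1) → k) = x :=
    Fin.cons_self_tail x
  exact hF (x 0) (fun j : Fin r => x j.succ) (by rwa [h1])

/-- the conclusion of the effective passage -/
theorem wrap {k : Type u} [Field k] {p r m : ℕ} {S : Set ℕ}
    (h : (∃ F : MvPolynomial (Fin (r + 1)) k, F ≠ 0 ∧
        F.totalDegree ≤ Pool.Agent.H937.OG.fBound r m ∧
        ∀ x : Fin (r + 1) → k, MvPolynomial.eval x F ≠ 0 → Pool.Agent.H937.OG.Exp r m x S) ∧
      (∀ a : ℕ → k, Pool.Agent.H937.OG.Generic a →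
        Pool.Agent.H937.OG.Exp r m (Fin.cons 0 (fun j : Fin r => a j) : Fin (r + 1) → k) S) ∧
      (p = 0 → ∀ T E : ℕ, Pool.Agent.H937.OG.hBound r m < T →
        Pool.Agent.H937.OG.dBound r m < E → Pool.Agent.H937.OG.Exp r m
          (Fin.cons 0 (fun j : Fin r => (T : k) ^ E ^ (j : ℕ)) : Fin (r + 1) → k) S)) :
    (∃ F : MvPolynomial (Fin (r + 1)) k, F ≠ 0 ∧ F.totalDegree ≤ degreeBound r m ∧
      ∀ (c : k) (a : Fin r → k), MvPolynomial.eval (Fin.cons c a : Fin (r + 1) → k) F ≠ 0 →
        ∀ d ∈ S, Module.finrank k (forms m c a d) = expected r m d) ∧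
    (∀ a : ℕ → k, Generic a → ∀ d ∈ S,
      Module.finrank k (forms m 0 (fun j : Fin r => a j) d) = expected r m d) ∧
    (p = 0 → ∀ T E : ℕ, height r m < T → degreeBound r m < E → ∀ d ∈ S,
      Module.finrank k (forms m (0 : k) (fun j : Fin r => (T : k) ^ E ^ (j : ℕ)) d) =
        expected r m d) := by
  obtain ⟨⟨F, hF, hF2, hF'⟩, h2, h3⟩ := h
  refine ⟨⟨F, hF, hF2, fun c a hca => exp_cons.1 (hF' _ hca)⟩, fun a ha => exp_cons.1 (h2 a ha),
    fun hp T E hT hE => exp_cons.1 (h3 hp T E hT (lt_of_le_of_lt ?_ hE))⟩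
  exact Nat.le_mul_of_pos_left _ (Nat.succ_pos _)

/-- from one field of characteristic zero to characteristic zero and large characteristics -/
theorem holds_large {K : Type} [Field K] [Infinite K] {r m : ℕ} (hr : 10 ≤ r) {S : Set ℕ}
    (hS : ∃ B ∈ S, (m + 1) * (Nat.sqrt r + 1) ≤ B ∧ B ≤ top r m)
    (h : ∃ F : MvPolynomial (Fin (r + 1)) K, F ≠ 0 ∧
      ∀ (c : K) (a : Fin r → K), MvPolynomial.eval (Fin.cons c a : Fin (r + 1) → K) F ≠ 0 →
        ∀ d ∈ S, Module.finrank K (forms m c a d) = expected r m d) :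
    Holds.{u} (Large r m) r m S := by
  obtain ⟨F, hF, hF'⟩ := h
  obtain ⟨x0, hx0⟩ := Pool.Agent.H937.OG.exists_eval_ne hF
  intro k _ p _ hp
  exact wrap (Pool.Agent.H937.OG.eff_of_exp.{u, 0} (by omega) hS (exp_of_cons hF' x0 hx0) k p
    (hp.imp_right Or.inl))

/-- from general collisions over all fields to germs -/
theorem holds_general {P : ℕ → Prop} {r m : ℕ} (hr : 10 ≤ r) {S : Set ℕ}
    (hS : ∃ B ∈ S, (m + 1) * (Nat.sqrt r + 1) ≤ B ∧ B ≤ top r m)
    (h : ∀ (k : Type u) [Field k] [Infinite k] (p : ℕ) [CharP k p], P p →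
      ∃ F : MvPolynomial (Fin (r + 1)) k, F ≠ 0 ∧
        ∀ (c : k) (a : Fin r → k), MvPolynomial.eval (Fin.cons c a : Fin (r + 1) → k) F ≠ 0 →
          ∀ d ∈ S, Module.finrank k (forms m c a d) = expected r m d) :
    Holds.{u} P r m S := by
  intro k _ p _ hp
  have hc : CharP (AlgebraicClosure k) p :=
    charP_of_injective_algebraMap (algebraMap k (AlgebraicClosure k)).injective p
  obtain ⟨F, hF, hF'⟩ := h (AlgebraicClosure k) p hp
  obtain ⟨x0, hx0⟩ := Pool.Agent.H937.OG.exists_eval_ne hF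
  exact wrap (Pool.Agent.H937.OG.eff_of_exp.{u, u} (by omega) hS (exp_of_cons hF' x0 hx0) k p
    (Or.inr (Or.inr hc)))

theorem univ_top (r m : ℕ) :
    ∃ B ∈ (Set.univ : Set ℕ), (m + 1) * (Nat.sqrt r + 1) ≤ B ∧ B ≤ top r m :=
  ⟨(m + 1) * (Nat.sqrt r + 1), trivial, le_rfl, Nat.le_succ _⟩

theorem ne_top (r m d₀ : ℕ) :
    ∃ B ∈ {d : ℕ | d ≠ d₀}, (m + 1) * (Nat.sqrt r + 1) ≤ B ∧ B ≤ top r m := by
  by_cases h : (m + 1) * (Nat.sqrt r + 1) = d₀
  · exact ⟨(m + 1) * (Nat.sqrt r + 1) + 1, by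
      show (m + 1) * (Nat.sqrt r + 1) + 1 ≠ d₀
      omega, Nat.le_succ _, le_rfl⟩
  · exact ⟨(m + 1) * (Nat.sqrt r + 1), h, le_rfl, Nat.le_succ _⟩

theorem win_top (r m : ℕ) : ∃ B ∈ {d : ℕ | (d : ℝ) ≤ Real.sqrt r * m ∨
    Real.sqrt r * (m + 1) ≤ d + 3}, (m + 1) * (Nat.sqrt r + 1) ≤ B ∧ B ≤ top r m := by
  refine ⟨(m + 1) * (Nat.sqrt r + 1), Or.inr ?_, le_rfl, Nat.le_succ _⟩
  have h1 : Real.sqrt r ≤ Nat.sqrt r + 1 := by
    rw [Real.sqrt_le_left (by positivity)]
    have h2 : r < (Nat.sqrt r + 1) * (Nat.sqrt r + 1) := Nat.lt_succ_sqrt r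
    have h3 : (r : ℝ) < ((Nat.sqrt r : ℝ) + 1) * ((Nat.sqrt r : ℝ) + 1) := by exact_mod_cast h2
    nlinarith
  have h4 : Real.sqrt r * ((m : ℝ) + 1) ≤ ((Nat.sqrt r : ℝ) + 1) * ((m : ℝ) + 1) :=
    mul_le_mul_of_nonneg_right h1 (by positivity)
  push_cast
  nlinarith

/-- perfect squares, in characteristic zero or larger than `r (m + 1)` -/
theorem squares {r m : ℕ} (hr : 10 ≤ r) (hm : 1 ≤ m) (hsq : IsSquare r) :
    Holds.{u} (fun p => p = 0 ∨ r * (m + 1) < p) r m Set.univ := by
  refine holds_general hr (univ_top r m) fun k _ _ p _ hp => ?_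
  obtain ⟨s, hs⟩ := hsq
  have hs2 : 2 ≤ s := by
    by_contra hcon
    have h1 : s < 2 := not_le.1 hcon
    interval_cases s <;> omega
  obtain ⟨F, hF, hF'⟩ := Pool.Agent.H932R2.collision_main (K := k) hr hm
    ⟨s, 0, hs2, by rw [hs]; ring, Or.inl rfl⟩ (by
      intro n hn hn' h0
      rw [CharP.cast_eq_zero_iff k p] at h0
      rcases hp with hp | hp
      · rw [hp] at h0
        have := Nat.eq_zero_of_zero_dvd h0
        omega
      · have := Nat.le_of_dvd hn h0
        omega)
  exact ⟨F, hF, fun c a hca d _ => hF' c a hca d⟩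

theorem germ_generic : Generic germ := by
  intro D hD h0
  apply hD
  have h1 := Pool.Agent.Y76.NQ.algInd_germ
  rw [algebraicIndependent_iff] at h1
  have h2 := h1 (MvPolynomial.map (Int.castRingHom ℚ) D) (by
    rw [← h0, MvPolynomial.aeval_def, MvPolynomial.eval₂_map, MvPolynomial.aeval_def]
    congr 1)
  ext α
  rw [MvPolynomial.coeff_map, MvPolynomial.coeff_zero]
  have h3 := congrArg (MvPolynomial.coeff α) h2
  rw [MvPolynomial.coeff_map, MvPolynomial.coeff_zero] at h3
  have h4 : MvPolynomial.coeff α D = 0 := by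
    have : ((MvPolynomial.coeff α D : ℤ) : ℚ) = 0 := h3
    exact_mod_cast this
  rw [h4, map_zero]

theorem settled_of {r m : ℕ} (hr : 10 ≤ r)
    (h : Pool.Agent.Results.MP_e6aa12_ag.EveryNumberOfPoints.Expected.{0} r m Set.univ) :
    Settled.{u} r m := holds_large (K := ℚ) hr (univ_top r m) (h ℚ)

theorem settled_of' {r m : ℕ} (hr : 10 ≤ r)
    (h : Pool.Agent.Results.MP_e6aa12_ag.EveryNumberTogether.EveryDegree.{0} r m) :
    Settled.{u} r m := by
  obtain ⟨F, hF, hF'⟩ := h ℚ
  exact holds_large (K := ℚ) hr (univ_top r m) ⟨F, hF, fun c a hc d _ => hF' c a hc d⟩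

theorem ncard_settled {r : ℕ} (hr : 10 ≤ r) (M : ℕ) :
    {m : ℕ | m < M ∧ ¬ Settled.{u} r m}.ncard ≤
    {m : ℕ | m < M ∧ ¬ Pool.Agent.Results.MP_e6aa12_ag.EveryNumberOfPoints.Expected.{0} r m
      Set.univ}.ncard := by
  have hsub : {m : ℕ | m < M ∧ ¬ Settled.{u} r m} ⊆ {m : ℕ | m < M ∧
      ¬ Pool.Agent.Results.MP_e6aa12_ag.EveryNumberOfPoints.Expected.{0} r m Set.univ} :=
    fun m hm => ⟨hm.1, fun h => hm.2 (settled_of hr h)⟩
  exact Set.ncard_le_ncard hsub ((Set.finite_lt_nat M).subset fun m hm => hm.1)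

/-- **One germ for all collisions of fat points, effective bounds, explicit collisions.** -/
theorem result :
    -- (1) every characteristic
    (∀ r m : ℕ, 10 ≤ r → Holds.{u} (fun _ => True) r m
      {d | (d : ℝ) ≤ Real.sqrt r * m ∨ Real.sqrt r * (m + 1) ≤ d + 3}) ∧
    -- (2) characteristic zero and large characteristics: all degrees but at most one
    (∀ r m : ℕ, 10 ≤ r → ∃ d₀ : ℕ, Holds.{u} (Large r m) r m {d | d ≠ d₀}) ∧
    -- (3) all degrees
    (∀ r m : ℕ, 10 ≤ r → 1 ≤ m → IsSquare r →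
      Holds.{u} (fun p => p = 0 ∨ r * (m + 1) < p) r m Set.univ) ∧
    (∀ m : ℕ, Holds.{u} (fun p => p = 0 ∨ 11 * m ≤ 10 * p) 13 m Set.univ) ∧
    -- (4) all degrees, for most multiplicities
    (∀ r : ℕ, 10 ≤ r → ∀ ε : ℝ, 0 < ε → ∃ M₀ : ℕ, ∀ M : ℕ, M₀ ≤ M →
      (Set.ncard {m : ℕ | m < M ∧ ¬ Settled.{u} r m} : ℝ) ≤
        ((min (Real.sqrt r - 3) (2 / 3 + 9 / (4 * Real.sqrt r)) +
          min (Real.sqrt r - 3) (2 / 3 + 1 / (4 * Real.sqrt r))) / 2 + ε) * M) ∧
    (∀ ε : ℝ, 0 < ε → ∃ N : ℕ, ∀ r : ℕ, N ≤ r → ∃ M₀ : ℕ, ∀ M : ℕ, M₀ ≤ M →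
      (Set.ncard {m : ℕ | m < M ∧ ¬ Settled.{u} r m} : ℝ) ≤ ε * M) ∧
    -- (5) all degrees, for many numbers of points at once
    (∀ R : ℕ, ∃ B : ℕ, ∀ M : ℕ, ∃ m : ℕ, M ≤ m ∧ m < M + B ∧
      ∀ r : ℕ, 10 ≤ r → (r ≤ R ∨ IsSquare r) → Settled.{u} r m) ∧
    (∃ C : ℝ, 0 < C ∧ ∀ m : ℕ, 1 ≤ m → {r : ℕ | 10 ≤ r ∧ ¬ Settled.{u} r m}.Finite ∧
      (Set.ncard {r : ℕ | 10 ≤ r ∧ ¬ Settled.{u} r m} : ℝ) ≤ C * (m : ℝ) ^ ((5 : ℝ) / 6)) ∧
    -- (6) a generic germ
    Generic germ := by
  obtain ⟨a1, -, -, a4, a5⟩ := Pool.Agent.Results.MP_e6aa12_ag.EveryNumberOfPoints.result.{0}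
  obtain ⟨b1, C, hC, b2⟩ := Pool.Agent.Results.MP_e6aa12_ag.EveryNumberTogether.result.{0}
  refine ⟨fun r m hr => ?_, fun r m hr => ?_, fun r m hr hm hsq => squares hr hm hsq, fun m => ?_,
    fun r hr ε hε => ?_, fun ε hε => ?_, fun R => ?_, ⟨C, hC, fun m hm => ?_⟩, germ_generic⟩
  · exact holds_general hr (win_top r m) fun k _ _ p _ _ =>
      (Pool.Agent.Results.MP_e6aa12_ag.AllCharacteristicsWindow.result.{u}.1 r m hr) k
  · obtain ⟨d₀, hd₀⟩ := a1 r m hr
    exact ⟨d₀, holds_large.{u} (K := ℚ) hr (ne_top r m d₀) (hd₀ ℚ)⟩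
  · refine holds_general (by norm_num) (univ_top 13 m) fun k _ _ p _ hp => ?_
    have h1 := Pool.Agent.Results.MP_e6aa12_ag.ThirteenEveryDegree.result m k
    rcases hp with rfl | hp
    · obtain ⟨F, hF, hF'⟩ := h1.1 (CharP.charP_to_charZero k)
      exact ⟨F, hF, fun c a hc d _ => hF' c a hc d⟩
    · obtain ⟨F, hF, hF'⟩ := h1.2 p ‹_› hp
      exact ⟨F, hF, fun c a hc d _ => hF' c a hc d⟩
  · obtain ⟨M₀, hM₀⟩ := a4 r hr ε hε
    refine ⟨M₀, fun M hM => le_trans ?_ (hM₀ M hM)⟩
    exact_mod_cast ncard_settled hr M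
  · obtain ⟨N, hN⟩ := a5 ε hε
    refine ⟨max N 10, fun r hr => ?_⟩
    have hr10 : 10 ≤ r := (le_max_right _ _).trans hr
    obtain ⟨M₀, hM₀⟩ := (hN r ((le_max_left _ _).trans hr)).2
    refine ⟨M₀, fun M hM => le_trans ?_ (hM₀ M hM)⟩
    exact_mod_cast ncard_settled hr10 M
  · obtain ⟨B, hB⟩ := b1 R
    refine ⟨B, fun M => ?_⟩
    obtain ⟨m, h1, h2, h3⟩ := hB M
    exact ⟨m, h1, h2, fun r hr hr' => settled_of' hr (h3 r hr hr')⟩
  · obtain ⟨h1, h2⟩ := b2 m hm
    have hsub : {r : ℕ | 10 ≤ r ∧ ¬ Settled.{u} r m} ⊆ {r : ℕ | 10 ≤ r ∧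
        ¬ Pool.Agent.Results.MP_e6aa12_ag.EveryNumberTogether.EveryDegree.{0} r m} :=
      fun r hr => ⟨hr.1, fun h => hr.2 (settled_of' hr.1 h)⟩
    refine ⟨h1.subset hsub, le_trans ?_ h2⟩
    exact_mod_cast Set.ncard_le_ncard hsub h1

end Pool.Agent.Results.MP_e6aa12_ag.OneGermLargeCharacteristic
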